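import Pool.Agent.E8helper57.AV.Stm2

/-!
Project AV, piece GEO: from arcs in the plane to the discrete model.
-/

set_option autoImplicit false

open Filter Topology

namespace Pool.Agent.E8helper81.AV

open Pool.Agent.E8helper57.AV Pool.Agent.X63

/-- closed presence -/
def cp (a b x : ℝ) : Prop :=
  ∃ j : ℤ, a ≤ x + j * (2 * Real.pi) ∧ x + j * (2 * Real.pi) ≤ b

/-- half open presence -/
def hp (a b x : ℝ) : Prop :=
  ∃ j : ℤ, a < x + j * (2 * Real.pi) ∧ x + j * (2 * Real.pi) ≤ b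

/-! ### points -/

lemma mem_arc {r a b x : ℝ} (h : cp a b x) : rayPt r x ∈ arcSet r a b := by
  obtain ⟨j, h1, h2⟩ := h
  refine ⟨x + j * (2 * Real.pi), h1, h2, ?_⟩
  simp only [rayPt, Real.cos_add_int_mul_two_pi, Real.sin_add_int_mul_two_pi]

lemma rayPt_neg (s x : ℝ) : rayPt (-s) (x + Real.pi) = rayPt s x := by
  simp only [rayPt, Real.cos_add_pi, Real.sin_add_pi, neg_mul_neg]

lemma rayPt_neg' (s x : ℝ) : rayPt (-s) x = rayPt s (x + Real.pi) := by
  simp only [rayPt, Real.cos_add_pi, Real.sin_add_pi, neg_mul, mul_neg]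

lemma cp_of_mem {r a b s x : ℝ} (hr : 0 < r) (hs : 0 < s) (h : rayPt s x ∈ arcSet r a b) :
    s = r ∧ cp a b x := by
  obtain ⟨ψ, h1, h2, h3⟩ := h
  simp only [rayPt, Prod.mk.injEq] at h3
  obtain ⟨h3, h4⟩ := h3
  have e1 : s ^ 2 = (s * Real.cos x) ^ 2 + (s * Real.sin x) ^ 2 := by
    have := Real.sin_sq_add_cos_sq x
    linear_combination -(s ^ 2) * this
  have e2 : r ^ 2 = (r * Real.cos ψ) ^ 2 + (r * Real.sin ψ) ^ 2 := by
    have := Real.sin_sq_add_cos_sq ψ
    linear_combination -(r ^ 2) * this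
  have h5 : s ^ 2 = r ^ 2 := by rw [e1, e2, h3, h4]
  have h6 : s = r := (pow_left_inj₀ hs.le hr.le two_ne_zero).1 h5
  subst h6
  have hc : Real.cos x = Real.cos ψ := mul_left_cancel₀ hs.ne' h3
  have hsn : Real.sin x = Real.sin ψ := mul_left_cancel₀ hs.ne' h4
  have h7 : (ψ : Real.Angle) = x := Real.Angle.cos_sin_inj hc.symm hsn.symm
  obtain ⟨m, hm⟩ := Real.Angle.angle_eq_iff_two_pi_dvd_sub.1 h7
  refine ⟨rfl, m, ?_, ?_⟩
  · have : x + m * (2 * Real.pi) = ψ := by linear_combination -hm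
    rw [this]; exact h1
  · have : x + m * (2 * Real.pi) = ψ := by linear_combination -hm
    rw [this]; exact h2

/-- symmetric form of the visibility -/
lemma rad_sym {V : Type} {A : V → Set (ℝ × ℝ)} {k : ℕ} {u v : V} (h : RadVis A k u v) :
    ∃ (C : Set (ℝ × ℝ)) (s t φ : ℝ), 0 < s ∧ t ≠ 0 ∧ s ≠ t ∧ rayPt s φ ∈ A u ∧
      rayPt t φ ∈ A v ∧ (∀ x, min s t ≤ x → x ≤ max s t → rayPt x φ ∈ C) ∧
      Set.ncard {w : V | w ≠ u ∧ w ≠ v ∧ (A w ∩ C).Nonempty} ≤ k := by
  have h0 : ∃ (C : Set (ℝ × ℝ)) (s t φ : ℝ), s ≠ 0 ∧ t ≠ 0 ∧ s ≠ t ∧ rayPt s φ ∈ A u ∧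
      rayPt t φ ∈ A v ∧ (∀ x, min s t ≤ x → x ≤ max s t → rayPt x φ ∈ C) ∧
      Set.ncard {w : V | w ≠ u ∧ w ≠ v ∧ (A w ∩ C).Nonempty} ≤ k := by
    obtain ⟨s₁, s₂, b₁, b₂, h1, h2, h12, hb, -, hside, hcard⟩ := h
    have m1 : rayPt s₁ b₁ ∈ coneSet s₁ s₁ b₁ b₂ := ⟨s₁, b₁, le_rfl, le_rfl, le_rfl, hb.le, rfl⟩
    have m2 : rayPt s₂ b₁ ∈ coneSet s₂ s₂ b₁ b₂ := ⟨s₂, b₁, le_rfl, le_rfl, le_rfl, hb.le, rfl⟩
    have m3 : ∀ x, s₁ ≤ x → x ≤ s₂ → rayPt x b₁ ∈ coneSet s₁ s₂ b₁ b₂ := fun x hx1 hx2 =>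
      ⟨x, b₁, hx1, hx2, le_rfl, hb.le, rfl⟩
    rcases hside with ⟨k1, k2⟩ | ⟨k1, k2⟩
    · refine ⟨coneSet s₁ s₂ b₁ b₂, s₁, s₂, b₁, h1, h2, h12.ne, k1 m1, k2 m2, ?_, hcard⟩
      intro x hx1 hx2
      rw [min_eq_left h12.le] at hx1
      rw [max_eq_right h12.le] at hx2
      exact m3 x hx1 hx2
    · refine ⟨coneSet s₁ s₂ b₁ b₂, s₂, s₁, b₁, h2, h1, h12.ne', k2 m2, k1 m1, ?_, hcard⟩
      intro x hx1 hx2
      rw [min_eq_right h12.le] at hx1
      rw [max_eq_left h12.le] at hx2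
      exact m3 x hx1 hx2
  obtain ⟨C, s, t, φ, hs, ht, hst, hu, hv, hC, hk⟩ := h0
  rcases lt_or_gt_of_ne hs with h1 | h1
  · refine ⟨C, -s, -t, φ + Real.pi, by linarith, neg_ne_zero.2 ht, fun h => hst (neg_injective h),
      by rwa [rayPt_neg], by rwa [rayPt_neg], ?_, hk⟩
    intro x hx1 hx2
    rw [min_neg_neg] at hx1
    rw [max_neg_neg] at hx2
    have := hC (-x) (by linarith) (by linarith)
    rwa [rayPt_neg', ] at this
  · exact ⟨C, s, t, φ, h1, ht, hst, hu, hv, hC, hk⟩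

open Classical in
/-- the visibility in a direction -/
lemma see_real {n : ℕ} {k : ℕ} (r a b : Fin n → ℝ) (hr : ∀ c, 0 < r c) (σ : Equiv.Perm (Fin n))
    (hσ : Antitone (r ∘ σ)) (i j : Fin n)
    (h : RadVis (fun w => arcSet (r w) (a w) (b w)) k (σ i) (σ j)) :
    ∃ x : ℝ, see k (fun c => decide (cp (a (σ c)) (b (σ c)) x))
      (fun c => decide (cp (a (σ c)) (b (σ c)) (x + Real.pi))) i j = true := by
  obtain ⟨C, s, t, φ, hs, ht, hst, hu, hv, hC, hk⟩ := rad_sym h
  obtain ⟨e1, cu⟩ := cp_of_mem (hr _) hs hu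
  have count : ∀ F : Finset (Fin n), (∀ c ∈ F, c ≠ i ∧ c ≠ j ∧
      (arcSet (r (σ c)) (a (σ c)) (b (σ c)) ∩ C).Nonempty) → F.card ≤ k := by
    intro F hF
    refine le_trans ?_ hk
    rw [← Set.ncard_coe_finset F, ← Set.ncard_image_of_injective _ σ.injective]
    apply Set.ncard_le_ncard _ (Set.toFinite _)
    rintro _ ⟨c, hc, rfl⟩
    obtain ⟨h1, h2, h3⟩ := hF c hc
    exact ⟨fun h => h1 (σ.injective h), fun h => h2 (σ.injective h), h3⟩
  refine ⟨φ, ?_⟩
  unfold see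
  simp only [Bool.and_eq_true, Bool.or_eq_true, decide_eq_true_eq]
  refine ⟨cu, ?_⟩
  have hrc : ∀ c, i ≤ c → r (σ c) ≤ s := fun c hc => by rw [e1]; exact hσ hc
  rcases lt_or_gt_of_ne ht with h1 | h1
  · right
    rw [← neg_neg t, rayPt_neg'] at hv
    obtain ⟨e2, cv⟩ := cp_of_mem (hr _) (neg_pos.2 h1) hv
    refine ⟨cv, count _ ?_⟩
    intro c hc
    simp only [Finset.mem_filter, Finset.mem_univ, true_and] at hc
    obtain ⟨hci, hcj, hc⟩ := hc
    refine ⟨hci, hcj, ?_⟩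
    have hp := hr (σ c)
    rcases hc with ⟨g1, g2⟩ | ⟨g1, g2⟩
    · refine ⟨rayPt (r (σ c)) φ, mem_arc g2, hC _ ?_ ?_⟩
      · exact (min_le_right _ _).trans (by linarith)
      · exact (hrc c g1.le).trans (le_max_left _ _)
    · refine ⟨rayPt (r (σ c)) (φ + Real.pi), mem_arc g2, ?_⟩
      rw [← rayPt_neg']
      have g3 : r (σ c) ≤ -t := by rw [e2]; exact hσ g1.le
      apply hC
      · exact (min_le_right _ _).trans (by linarith)
      · exact le_trans (by linarith) (le_max_left _ _)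
  · left
    obtain ⟨e2, cv⟩ := cp_of_mem (hr _) h1 hv
    refine ⟨cv, count _ ?_⟩
    intro c hc
    simp only [Finset.mem_filter, Finset.mem_univ, true_and] at hc
    obtain ⟨g1, g2, g3⟩ := hc
    refine ⟨g1.ne', g2.ne, rayPt (r (σ c)) φ, mem_arc g3, hC _ ?_ ?_⟩
    · refine (min_le_right _ _).trans ?_
      rw [e2]; exact hσ g2.le
    · exact (hrc c g1.le).trans (le_max_left _ _)

/-! ### perturbation -/

lemma lin_ev (p q : ℝ) (h : 0 < p) : ∀ᶠ ε in 𝓝[>] (0 : ℝ), 0 < p + ε * q := by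
  have h1 : Tendsto (fun ε : ℝ => p + ε * q) (𝓝[>] 0) (𝓝 (p + 0 * q)) := by
    apply Tendsto.mono_left _ nhdsWithin_le_nhds
    exact Continuous.tendsto (by fun_prop) 0
  exact h1.eventually (lt_mem_nhds (by linarith))

lemma pos_ev : ∀ᶠ ε in 𝓝[>] (0 : ℝ), 0 < ε := self_mem_nhdsWithin

lemma ev1 (a b x δ : ℝ) (hδ : 0 < δ) :
    ∀ᶠ ε in 𝓝[>] (0 : ℝ), (hp (a - ε * δ) (b + ε * δ) x ↔ cp a b x) := by
  have hpi := Real.pi_pos
  have h2 : 0 < 2 * Real.pi := by linarith
  by_cases h : cp a b x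
  · filter_upwards [pos_ev] with ε hε
    refine iff_of_true ?_ h
    obtain ⟨j, h1, h3⟩ := h
    have := mul_pos hε hδ
    exact ⟨j, by linarith, by linarith⟩
  · set j₀ : ℤ := ⌈(a - x) / (2 * Real.pi)⌉ with hj
    have k1 : a ≤ x + j₀ * (2 * Real.pi) := by
      have := Int.le_ceil ((a - x) / (2 * Real.pi))
      rw [← hj, div_le_iff₀ h2] at this
      linarith
    have k2 : x + (j₀ - 1) * (2 * Real.pi) < a := by
      have := Int.ceil_lt_add_one ((a - x) / (2 * Real.pi))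
      rw [← hj, ← sub_lt_iff_lt_add, lt_div_iff₀ h2] at this
      linarith
    have k3 : b < x + j₀ * (2 * Real.pi) := by
      by_contra hc
      push Not at hc
      exact h ⟨j₀, k1, hc⟩
    filter_upwards [lin_ev (a - (x + (j₀ - 1) * (2 * Real.pi))) (-δ) (by linarith),
      lin_ev (x + j₀ * (2 * Real.pi) - b) (-δ) (by linarith)] with ε h3 h4
    refine iff_of_false ?_ h
    rintro ⟨j, h5, h6⟩
    have h7 : ((j₀ : ℝ) - 1) * (2 * Real.pi) < j * (2 * Real.pi) := by linarith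
    have h8 : (j : ℝ) * (2 * Real.pi) < j₀ * (2 * Real.pi) := by linarith
    have h9 := lt_of_mul_lt_mul_right h7 h2.le
    have h10 := lt_of_mul_lt_mul_right h8 h2.le
    have h11 : j₀ - 1 < j := by exact_mod_cast h9
    have h12 : j < j₀ := by exact_mod_cast h10
    omega

lemma ev2 (y δ : ℝ) (hδ : δ ≠ 0) : ∀ᶠ ε in 𝓝[>] (0 : ℝ), ∀ m : ℤ, y + ε * δ ≠ m * Real.pi := by
  have hpi := Real.pi_pos
  rcases lt_or_gt_of_ne hδ with h | h
  · set m₀ : ℤ := ⌈y / Real.pi⌉ with hm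
    have k1 : y ≤ m₀ * Real.pi := by
      have := Int.le_ceil (y / Real.pi)
      rwa [← hm, div_le_iff₀ hpi] at this
    have k2 : (m₀ - 1) * Real.pi < y := by
      have := Int.ceil_lt_add_one (y / Real.pi)
      rwa [← hm, ← sub_lt_iff_lt_add, lt_div_iff₀ hpi] at this
    filter_upwards [pos_ev, lin_ev (y - (m₀ - 1) * Real.pi) δ (by linarith)] with ε h3 h4
    intro m h5
    have h6 := mul_neg_of_pos_of_neg h3 h
    have h7 : ((m₀ : ℝ) - 1) * Real.pi < m * Real.pi := by linarith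
    have h8 : (m : ℝ) * Real.pi < m₀ * Real.pi := by linarith
    have h9 := lt_of_mul_lt_mul_right h7 hpi.le
    have h10 := lt_of_mul_lt_mul_right h8 hpi.le
    have h11 : m₀ - 1 < m := by exact_mod_cast h9
    have h12 : m < m₀ := by exact_mod_cast h10
    omega
  · set m₀ : ℤ := ⌊y / Real.pi⌋ with hm
    have k1 : m₀ * Real.pi ≤ y := by
      have := Int.floor_le (y / Real.pi)
      rwa [← hm, le_div_iff₀ hpi] at this
    have k2 : y < (m₀ + 1) * Real.pi := by
      have := Int.lt_floor_add_one (y / Real.pi)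
      rwa [← hm, div_lt_iff₀ hpi] at this
    filter_upwards [pos_ev, lin_ev ((m₀ + 1) * Real.pi - y) (-δ) (by linarith)] with ε h3 h4
    intro m h5
    have h6 := mul_pos h3 h
    have h7 : (m₀ : ℝ) * Real.pi < m * Real.pi := by linarith
    have h8 : (m : ℝ) * Real.pi < (m₀ + 1) * Real.pi := by linarith
    have h9 := lt_of_mul_lt_mul_right h7 hpi.le
    have h10 := lt_of_mul_lt_mul_right h8 hpi.le
    have h11 : m₀ < m := by exact_mod_cast h9
    have h12 : m < m₀ + 1 := by exact_mod_cast h10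
    omega

/-! ### discretisation -/

section disc

variable {ι : Type} [Fintype ι] (y : ι → ℝ)

/-- the number of the translates of the endpoints below `x` -/
noncomputable def D (x : ℝ) : ℤ := ∑ e, ⌈(x - y e) / Real.pi⌉

lemma D_mono {x x' : ℝ} (h : x ≤ x') : D y x ≤ D y x' := by
  apply Finset.sum_le_sum
  intro e _
  apply Int.ceil_le_ceil
  exact div_le_div_of_nonneg_right (by linarith) Real.pi_pos.le

lemma D_add (x : ℝ) (m : ℤ) : D y (x + m * Real.pi) = D y x + Fintype.card ι * m := by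
  unfold D
  have : ∀ e : ι, ⌈(x + m * Real.pi - y e) / Real.pi⌉ = ⌈(x - y e) / Real.pi⌉ + m := by
    intro e
    rw [← Int.ceil_add_intCast]
    congr 1
    field_simp [Real.pi_pos.ne']
    ring
  rw [Finset.sum_congr rfl fun e _ => this e, Finset.sum_add_distrib, Finset.sum_const,
    Finset.card_univ, nsmul_eq_mul]

lemma D_lt (e : ι) (m : ℤ) {x : ℝ} (h : y e + m * Real.pi < x) :
    D y (y e + m * Real.pi) < D y x := by
  apply Finset.sum_lt_sum
  · intro d _
    apply Int.ceil_le_ceil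
    exact div_le_div_of_nonneg_right (by linarith) Real.pi_pos.le
  · refine ⟨e, Finset.mem_univ _, ?_⟩
    have h1 : (y e + m * Real.pi - y e) / Real.pi = (m : ℝ) := by
      field_simp [Real.pi_pos.ne']
      ring
    rw [h1, Int.ceil_intCast, Int.lt_ceil, lt_div_iff₀ Real.pi_pos]
    linarith

lemma D_lt0 (e : ι) {x : ℝ} (h : y e < x) : D y (y e) < D y x := by
  have := D_lt y e 0 (x := x) (by simpa using h)
  simpa using this

lemma D_cong (hg : ∀ e e' : ι, e ≠ e' → ∀ m : ℤ, y e - y e' ≠ m * Real.pi) (e e' : ι)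
    (h : (Fintype.card ι : ℤ) ∣ D y (y e) - D y (y e')) : e = e' := by
  by_contra hne
  obtain ⟨q, hq⟩ := h
  have h1 : D y (y e) = D y (y e' + q * Real.pi) := by rw [D_add]; linarith
  rcases lt_trichotomy (y e) (y e' + q * Real.pi) with h2 | h2 | h2
  · have := D_lt0 y e h2
    omega
  · exact hg e e' hne q (by linarith)
  · have := D_lt y e' q h2
    omega

end disc

/-- the discrete arrangement -/
noncomputable def mk {n : ℕ} (al be : Fin n → ℝ) (h1 : ∀ c, al c < be c)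
    (h2 : ∀ c, be c < al c + 2 * Real.pi)
    (hg : ∀ e e' : Fin n ⊕ Fin n, e ≠ e' → ∀ m : ℤ,
      Sum.elim al be e - Sum.elim al be e' ≠ m * Real.pi) : Arr n where
  M := n + n
  st := fun c => D (Sum.elim al be) (al c)
  en := fun c => D (Sum.elim al be) (be c)
  lt := fun c => D_lt0 (Sum.elim al be) (Sum.inl c) (h1 c)
  gap := fun c => by
    have h3 := D_lt0 (Sum.elim al be) (Sum.inr c) (x := al c + (2 : ℤ) * Real.pi)
      (by simpa using h2 c)
    rw [D_add] at h3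
    simp only [Sum.elim_inr, Fintype.card_sum, Fintype.card_fin] at h3
    push_cast at h3 ⊢
    linarith
  ss := fun c d h => by
    have := D_cong (Sum.elim al be) hg (Sum.inl c) (Sum.inl d) (by simpa using h)
    exact Sum.inl_injective this
  ee := fun c d h => by
    have := D_cong (Sum.elim al be) hg (Sum.inr c) (Sum.inr d) (by simpa using h)
    exact Sum.inr_injective this
  se := fun c d h => by
    have := D_cong (Sum.elim al be) hg (Sum.inl c) (Sum.inr d) (by simpa using h)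
    exact absurd this (by simp)

lemma pr_iff {n : ℕ} (A : Arr n) (c : Fin n) (p : ℤ) :
    A.pr c p = true ↔ ∃ j : ℤ, A.st c < p + 2 * A.M * j ∧ p + 2 * A.M * j ≤ A.en c := by
  have h1 := A.lt c
  have h2 := A.gap c
  have hM : (0 : ℤ) < 2 * A.M := by linarith
  unfold Arr.pr
  rw [decide_eq_true_eq]
  constructor
  · intro h
    refine ⟨-((p - A.st c - 1) / (2 * A.M)), ?_, ?_⟩
    · have h3 := Int.emod_add_mul_ediv (p - A.st c - 1) (2 * A.M)
      have h4 := Int.emod_nonneg (p - A.st c - 1) hM.ne'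
      linarith
    · have h3 := Int.emod_add_mul_ediv (p - A.st c - 1) (2 * A.M)
      linarith
  · rintro ⟨j, h3, h4⟩
    have h5 : (p - A.st c - 1) % (2 * A.M) = p + 2 * A.M * j - A.st c - 1 := by
      rw [← Int.add_mul_emod_self_left (p - A.st c - 1) (2 * A.M) j]
      rw [Int.emod_eq_of_lt (by linarith) (by linarith)]
      ring
    rw [h5]
    linarith

lemma pr_add {n : ℕ} (A : Arr n) (c : Fin n) (p q : ℤ) :
    A.pr c (p + 2 * A.M * q) = A.pr c p := by
  rw [Bool.eq_iff_iff, pr_iff, pr_iff]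
  constructor
  · rintro ⟨j, h1, h2⟩
    exact ⟨q + j, by linarith, by linarith⟩
  · rintro ⟨j, h1, h2⟩
    exact ⟨j - q, by linarith, by linarith⟩

lemma pr_mk {n : ℕ} (al be : Fin n → ℝ) (h1 : ∀ c, al c < be c)
    (h2 : ∀ c, be c < al c + 2 * Real.pi)
    (hg : ∀ e e' : Fin n ⊕ Fin n, e ≠ e' → ∀ m : ℤ,
      Sum.elim al be e - Sum.elim al be e' ≠ m * Real.pi) (c : Fin n) (x : ℝ) :
    (mk al be h1 h2 hg).pr c (D (Sum.elim al be) x) = true ↔ hp (al c) (be c) x := by
  rw [pr_iff]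
  have key : ∀ j : ℤ, D (Sum.elim al be) x + 2 * (mk al be h1 h2 hg).M * j =
      D (Sum.elim al be) (x + j * (2 * Real.pi)) := by
    intro j
    have : x + j * (2 * Real.pi) = x + ((2 * j : ℤ) : ℝ) * Real.pi := by push_cast; ring
    rw [this, D_add]
    simp only [mk, Fintype.card_sum, Fintype.card_fin]
    push_cast
    ring
  unfold hp
  refine exists_congr fun j => ?_
  rw [key]
  refine and_congr ⟨fun h => ?_, fun h => ?_⟩ ⟨fun h => ?_, fun h => ?_⟩
  · by_contra hc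
    push Not at hc
    exact absurd h (not_lt.2 (D_mono (Sum.elim al be) hc))
  · exact D_lt0 (Sum.elim al be) (Sum.inl c) h
  · by_contra hc
    push Not at hc
    exact absurd h (not_le.2 (D_lt0 (Sum.elim al be) (Sum.inr c) hc))
  · exact D_mono (Sum.elim al be) h

lemma W_add {n : ℕ} (A : Arr n) (k : ℕ) (i j : Fin n) (p q : ℤ) :
    A.W k i j (p + 2 * A.M * q) = A.W k i j p := by
  have h1 : A.side (p + 2 * A.M * q) = A.side p := funext fun c => pr_add A c p q
  have h2 : A.side (p + 2 * A.M * q + A.M) = A.side (p + A.M) := funext fun c => by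
    have h3 : p + 2 * A.M * q + A.M = (p + A.M) + 2 * A.M * q := by ring
    show A.pr c _ = A.pr c _
    rw [h3, pr_add]
  unfold Arr.W
  rw [h1, h2]

open Classical in
theorem t_GEO : S_GEO := by
  intro n k G hG
  obtain ⟨r, a, b, hrab, -, hadj⟩ := hG
  obtain ⟨σ, hσ⟩ : ∃ σ : Equiv.Perm (Fin n), Antitone (r ∘ σ) := by
    refine ⟨Tuple.sort (fun i => - r i), ?_⟩
    intro i j hij
    have := Tuple.monotone_sort (fun i => - r i) hij
    simpa using this
  have hpi := Real.pi_pos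
  have key : ∀ i j : Fin n, ∃ x : ℝ, i < j → G.Adj (σ i) (σ j) →
      see k (fun c => decide (cp (a (σ c)) (b (σ c)) x))
      (fun c => decide (cp (a (σ c)) (b (σ c)) (x + Real.pi))) i j = true := by
    intro i j
    by_cases h : i < j ∧ G.Adj (σ i) (σ j)
    · obtain ⟨x, hx⟩ := see_real r a b (fun c => (hrab c).1) σ hσ i j
        ((hadj _ _ h.2.ne).1 h.2)
      exact ⟨x, fun _ _ => hx⟩
    · exact ⟨0, fun h1 h2 => absurd ⟨h1, h2⟩ h⟩
  choose X hX using key
  -- the perturbation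
  have hd : ∀ c : Fin n, (0 : ℝ) < ((c : ℕ) : ℝ) + 1 := fun c => by positivity
  have E1 : ∀ᶠ ε in 𝓝[>] (0 : ℝ), ∀ i j c : Fin n,
      (hp (a (σ c) - ε * (((c : ℕ) : ℝ) + 1)) (b (σ c) + ε * (((c : ℕ) : ℝ) + 1)) (X i j) ↔
        cp (a (σ c)) (b (σ c)) (X i j)) ∧
      (hp (a (σ c) - ε * (((c : ℕ) : ℝ) + 1)) (b (σ c) + ε * (((c : ℕ) : ℝ) + 1))
        (X i j + Real.pi) ↔ cp (a (σ c)) (b (σ c)) (X i j + Real.pi)) := by
    rw [Filter.eventually_all]; intro i
    rw [Filter.eventually_all]; intro j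
    rw [Filter.eventually_all]; intro c
    exact (ev1 _ _ _ _ (hd c)).and (ev1 _ _ _ _ (hd c))
  have E2 : ∀ᶠ ε in 𝓝[>] (0 : ℝ), ∀ c : Fin n, b (σ c) + ε * (((c : ℕ) : ℝ) + 1) <
      a (σ c) - ε * (((c : ℕ) : ℝ) + 1) + 2 * Real.pi := by
    rw [Filter.eventually_all]; intro c
    filter_upwards [lin_ev (a (σ c) + 2 * Real.pi - b (σ c)) (-(2 * (((c : ℕ) : ℝ) + 1)))
      (by linarith [(hrab (σ c)).2.2.2.2])] with ε h
    linarith
  have E3 : ∀ᶠ ε in 𝓝[>] (0 : ℝ), ∀ e e' : Fin n ⊕ Fin n, e ≠ e' → ∀ m : ℤ,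
      Sum.elim (fun c : Fin n => a (σ c) - ε * (((c : ℕ) : ℝ) + 1))
        (fun c : Fin n => b (σ c) + ε * (((c : ℕ) : ℝ) + 1)) e -
      Sum.elim (fun c : Fin n => a (σ c) - ε * (((c : ℕ) : ℝ) + 1))
        (fun c : Fin n => b (σ c) + ε * (((c : ℕ) : ℝ) + 1)) e' ≠ m * Real.pi := by
    rw [Filter.eventually_all]; intro e
    rw [Filter.eventually_all]; intro e'
    by_cases hne : e = e'
    · filter_upwards with ε h
      exact absurd hne h
    · have := ev2 (Sum.elim (a ∘ σ) (b ∘ σ) e - Sum.elim (a ∘ σ) (b ∘ σ) e')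
        (Sum.elim (fun c : Fin n => -(((c : ℕ) : ℝ) + 1)) (fun c : Fin n => ((c : ℕ) : ℝ) + 1) e -
        Sum.elim (fun c : Fin n => -(((c : ℕ) : ℝ) + 1)) (fun c : Fin n => ((c : ℕ) : ℝ) + 1) e')
        ?_
      · filter_upwards [this] with ε hε
        intro _ m h
        apply hε m
        rw [← h]
        rcases e with c | c <;> rcases e' with d | d <;>
          simp only [Sum.elim_inl, Sum.elim_inr, Function.comp_apply] <;> ring
      · rcases e with c | c <;> rcases e' with d | d <;>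
          simp only [Sum.elim_inl, Sum.elim_inr]
        · intro h0
          apply hne
          have : ((c : ℕ) : ℝ) = ((d : ℕ) : ℝ) := by linarith
          rw [Fin.ext (by exact_mod_cast this : (c : ℕ) = (d : ℕ))]
        · have h1 := hd c
          have h2 := hd d
          linarith
        · have h1 := hd c
          have h2 := hd d
          linarith
        · intro h0
          apply hne
          have : ((c : ℕ) : ℝ) = ((d : ℕ) : ℝ) := by linarith
          rw [Fin.ext (by exact_mod_cast this : (c : ℕ) = (d : ℕ))]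
  obtain ⟨ε, hε0, h1, h2, h3⟩ := (pos_ev.and (E1.and (E2.and E3))).exists
  have h0 : ∀ c : Fin n, a (σ c) - ε * (((c : ℕ) : ℝ) + 1) < b (σ c) + ε * (((c : ℕ) : ℝ) + 1) := by
    intro c
    have := mul_pos hε0 (hd c)
    linarith [(hrab (σ c)).2.2.2.1]
  obtain ⟨A, hA⟩ : ∃ A : Arr n, A = mk _ _ h0 h2 h3 := ⟨_, rfl⟩
  refine ⟨A, ?_⟩
  have hM : A.M = n + n := by rw [hA]; rfl
  -- visibility
  have vis : ∀ i j : Fin n, i < j → G.Adj (σ i) (σ j) →
      (i, j) ∈ (Finset.univ.filter fun x : Fin n × Fin n => x.1 < x.2 ∧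
        ((Finset.range (2 * A.M)).filter fun p : ℕ => A.W k x.1 x.2 (p : ℤ) = true).card ≠ 0) := by
    intro i j hij hG
    have h4 := hX i j hij hG
    obtain ⟨P, hP⟩ : ∃ P : ℤ, P = D (Sum.elim (fun c : Fin n => a (σ c) - ε * (((c : ℕ) : ℝ) + 1))
        (fun c : Fin n => b (σ c) + ε * (((c : ℕ) : ℝ) + 1))) (X i j) := ⟨_, rfl⟩
    have hPM : P + A.M = D (Sum.elim (fun c : Fin n => a (σ c) - ε * (((c : ℕ) : ℝ) + 1))
        (fun c : Fin n => b (σ c) + ε * (((c : ℕ) : ℝ) + 1))) (X i j + Real.pi) := by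
      have := D_add (Sum.elim (fun c : Fin n => a (σ c) - ε * (((c : ℕ) : ℝ) + 1))
        (fun c : Fin n => b (σ c) + ε * (((c : ℕ) : ℝ) + 1))) (X i j) 1
      simp only [Int.cast_one, one_mul, mul_one, Fintype.card_sum, Fintype.card_fin] at this
      rw [this, hP, hM]
    have hW : A.W k i j P = true := by
      rw [← h4]
      unfold Arr.W
      congr 1
      · funext c
        show A.pr c P = _
        rw [Bool.eq_iff_iff, decide_eq_true_eq, hP, hA, pr_mk]
        exact (h1 i j c).1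
      · funext c
        show A.pr c (P + A.M) = _
        rw [Bool.eq_iff_iff, decide_eq_true_eq, hPM, hA, pr_mk]
        exact (h1 i j c).2
    have hn : 0 < n := i.pos
    have hM0 : (0 : ℤ) < 2 * A.M := by
      rw [hM]
      push_cast
      have : (0 : ℤ) < n := by exact_mod_cast hn
      linarith
    simp only [Finset.mem_filter, Finset.mem_univ, true_and]
    refine ⟨hij, Finset.card_ne_zero_of_mem (a := (P % (2 * A.M)).toNat) ?_⟩
    have h5 := Int.emod_nonneg P hM0.ne'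
    have h6 := Int.emod_lt_of_pos P hM0
    rw [Finset.mem_filter, Finset.mem_range]
    refine ⟨by omega, ?_⟩
    rw [Int.toNat_of_nonneg h5]
    have h7 : P % (2 * A.M) = P + 2 * A.M * (-(P / (2 * A.M))) := by
      have := Int.emod_add_mul_ediv P (2 * A.M)
      linarith
    rw [h7, W_add]
    exact hW
  have hsub : G.edgeSet ⊆ (fun x : Fin n × Fin n => s(σ x.1, σ x.2)) ''
      ((Finset.univ.filter fun x : Fin n × Fin n => x.1 < x.2 ∧
        ((Finset.range (2 * A.M)).filter fun p : ℕ => A.W k x.1 x.2 (p : ℤ) = true).card ≠ 0 :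
        Finset (Fin n × Fin n)) : Set (Fin n × Fin n)) := by
    intro e
    induction e using Sym2.ind with
    | _ u v =>
      intro he
      rw [SimpleGraph.mem_edgeSet] at he
      have hne : σ.symm u ≠ σ.symm v := fun h => he.ne (σ.symm.injective h)
      rcases lt_or_gt_of_ne hne with h | h
      · refine ⟨(σ.symm u, σ.symm v), Finset.mem_coe.2 (vis _ _ h ?_), ?_⟩
        · simpa using he
        · simp
      · refine ⟨(σ.symm v, σ.symm u), Finset.mem_coe.2 (vis _ _ h ?_), ?_⟩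
        · simpa using he.symm
        · simp [Sym2.eq_swap]
  refine (Set.ncard_le_ncard hsub (Set.toFinite _)).trans ?_
  refine (Set.ncard_image_le (Set.toFinite _)).trans ?_
  rw [Set.ncard_coe_finset]
  unfold Arr.E
  exact le_of_eq (by congr)

end Pool.Agent.E8helper81.AV
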